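import Mathlib
import Pool.Agent.V1118.Graphical

/-!
# A graph whose class counting abscissa is not an integer

The graph is the complete graph on four vertices with one pendant vertex attached to each of its
vertices. The abscissa of convergence of the class counting zeta function of its graphical group
scheme (over the integers) is `25 / 2`.
-/

open Pool.Agent.V1118

namespace Pool.Agent.Results.MP_2f42a7_al.HalfIntegralAbscissa

/-- The number of conjugacy classes of a group. -/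
noncomputable def classNumber (H : Type) [Group H] : ℕ := Nat.card (ConjClasses H)

/-- The coefficients `k (G_Γ (ℤ / n))` of the class counting zeta function over `ℤ`. -/
noncomputable def coeffs {V : Type} [LinearOrder V] (Γ : SimpleGraph V) (n : ℕ) : ℕ :=
  classNumber (GG Γ (ZMod n))

/-- The Dirichlet series `∑_{n ≥ 1} k (G_Γ (ℤ / n)) n ^ (-s)` converges at `s` (convergence of the
sequence of partial sums). -/
def ConvergesAt {V : Type} [LinearOrder V] (Γ : SimpleGraph V) (s : ℂ) : Prop :=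
  ∃ l : ℂ, Filter.Tendsto
    (fun N : ℕ => ∑ n ∈ Finset.Icc 1 N, (coeffs Γ n : ℂ) * (n : ℂ) ^ (-s))
    Filter.atTop (nhds l)

/-- The abscissa of convergence `α(Γ)` of the class counting zeta function
`∑_{n ≥ 1} k (G_Γ (ℤ / n)) n ^ (-s)`: the infimum of the real `σ` such that the series converges
for all `s` with `Re s > σ`. -/
noncomputable def alpha {V : Type} [LinearOrder V] (Γ : SimpleGraph V) : EReal :=
  sInf (Real.toEReal '' {σ : ℝ | ∀ s : ℂ, σ < s.re → ConvergesAt Γ s})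

/-- The complete graph on `0, 1, 2, 3` with a pendant vertex `i + 4` attached to each `i < 4`. -/
def K4p : SimpleGraph (Fin 8) :=
  SimpleGraph.fromRel (fun u v => (u.val < 4 ∧ v.val < 4) ∨ v.val = u.val + 4)

instance : DecidableRel K4p.Adj := fun u v => by
  unfold K4p SimpleGraph.fromRel
  infer_instance

lemma card_edges : Nat.card K4p.edgeSet = 10 := by
  rw [Nat.card_eq_fintype_card]
  decide +kernel

/-! ### Counting in `ℤ / n` -/

section count

variable {n : ℕ} [NeZero n]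

local instance : DecidableEq (ZMod n × ZMod n) := inferInstance

/-- The number of vectors parallel to `w`. -/
def cc (w : ZMod n × ZMod n) : ℕ :=
  (Finset.univ.filter (fun v : ZMod n × ZMod n => w.1 * v.2 = v.1 * w.2)).card

lemma card_annih (u : ZMod n) :
    (Finset.univ.filter (fun t : ZMod n => u * t = 0)).card * addOrderOf u = n := by
  set f : ZMod n →+ ZMod n := AddMonoidHom.mulLeft u with hf
  have h1 := AddSubgroup.card_mul_index f.ker
  rw [AddSubgroup.index_ker] at h1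
  have h2 : Nat.card f.ker = (Finset.univ.filter (fun t : ZMod n => u * t = 0)).card := by
    rw [Nat.card_eq_fintype_card, Fintype.card_subtype]
    congr 1
    ext t
    simp [hf, AddMonoidHom.mem_ker]
  have h3 : f.range = AddSubgroup.zmultiples u := by
    ext x
    rw [AddSubgroup.mem_zmultiples_iff]
    constructor
    · rintro ⟨t, rfl⟩
      refine ⟨(t.val : ℤ), ?_⟩
      simp only [hf, AddMonoidHom.coe_mulLeft]
      rw [natCast_zsmul, nsmul_eq_mul, ZMod.natCast_zmod_val, mul_comm]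
    · rintro ⟨k, rfl⟩
      refine ⟨(k : ZMod n), ?_⟩
      simp only [hf, AddMonoidHom.coe_mulLeft]
      rw [zsmul_eq_mul, mul_comm]
  rw [h2, h3, Nat.card_zmultiples, Nat.card_zmod] at h1
  exact h1

lemma card_torsion_le (f : ℕ) (hf : 0 < f) :
    (Finset.univ.filter (fun t : ZMod n => f • t = 0)).card ≤ f :=
  IsAddCyclic.card_nsmul_eq_zero_le hf

lemma card_torsion2_le (f : ℕ) (hf : 0 < f) :
    (Finset.univ.filter (fun y : ZMod n × ZMod n => f • y = 0)).card ≤ f * f := by
  have h1 : (Finset.univ.filter (fun y : ZMod n × ZMod n => f • y = 0)) ⊆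
      (Finset.univ.filter (fun t : ZMod n => f • t = 0)) ×ˢ
        (Finset.univ.filter (fun t : ZMod n => f • t = 0)) := by
    intro y hy
    simp only [Finset.mem_filter, Finset.mem_univ, true_and, Prod.ext_iff, Prod.smul_fst,
      Prod.smul_snd, Prod.fst_zero, Prod.snd_zero, Finset.mem_product] at hy ⊢
    exact hy
  refine (Finset.card_le_card h1).trans ?_
  rw [Finset.card_product]
  exact Nat.mul_le_mul (card_torsion_le f hf) (card_torsion_le f hf)

/-- Fibre bound: solutions of `u * t = c`. -/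
lemma card_fibre_le (u c : ZMod n) :
    (Finset.univ.filter (fun t : ZMod n => u * t = c)).card ≤
      (Finset.univ.filter (fun t : ZMod n => u * t = 0)).card := by
  by_cases h : ∃ t0, u * t0 = c
  · obtain ⟨t0, ht0⟩ := h
    refine Finset.card_le_card_of_injOn (fun t => t - t0) ?_ ?_
    · intro t ht
      simp only [Finset.coe_filter, Finset.mem_univ, true_and, Set.mem_setOf_eq] at ht ⊢
      rw [mul_sub, ht, ht0, sub_self]
    · intro a _ b _ hab
      exact sub_left_injective hab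
  · have : (Finset.univ.filter (fun t : ZMod n => u * t = c)) = ∅ := by
      rw [Finset.filter_eq_empty_iff]
      intro t _ ht
      exact h ⟨t, ht⟩
    rw [this]
    simp

/-- The main counting bound: torsion vectors parallel to a given vector `x`, when the order of `x`
is the order of one of its coordinates. -/
lemma card_par_le (x : ZMod n × ZMod n) (f : ℕ) (hf : 0 < f)
    (hx : addOrderOf x = addOrderOf x.1 ∨ addOrderOf x = addOrderOf x.2) :
    (Finset.univ.filter (fun y : ZMod n × ZMod n => f • y = 0 ∧ x.1 * y.2 = y.1 * x.2)).card *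
      addOrderOf x ≤ f * n := by
  rcases hx with hx | hx
  · -- fix the first coordinate of `y`
    have h1 : (Finset.univ.filter
        (fun y : ZMod n × ZMod n => f • y = 0 ∧ x.1 * y.2 = y.1 * x.2)) ⊆
        (Finset.univ.filter (fun t : ZMod n => f • t = 0)).biUnion (fun s =>
          (Finset.univ.filter (fun t : ZMod n => x.1 * t = s * x.2)).image (fun t => (s, t))) := by
      intro y hy
      simp only [Finset.mem_filter, Finset.mem_univ, true_and, Prod.ext_iff, Prod.smul_fst,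
        Prod.smul_snd, Prod.fst_zero, Prod.snd_zero, Finset.mem_biUnion, Finset.mem_image] at hy ⊢
      exact ⟨y.1, hy.1.1, y.2, hy.2, rfl, rfl⟩
    have h2 : (Finset.univ.filter
        (fun y : ZMod n × ZMod n => f • y = 0 ∧ x.1 * y.2 = y.1 * x.2)).card ≤
        f * (Finset.univ.filter (fun t : ZMod n => x.1 * t = 0)).card := by
      refine (Finset.card_le_card h1).trans ?_
      refine (Finset.card_biUnion_le_card_mul _ _ _ fun s _ =>
        Finset.card_image_le.trans (card_fibre_le x.1 (s * x.2))).trans ?_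
      exact Nat.mul_le_mul_right _ (card_torsion_le f hf)
    calc _ ≤ f * (Finset.univ.filter (fun t : ZMod n => x.1 * t = 0)).card * addOrderOf x :=
          Nat.mul_le_mul_right _ h2
      _ = f * n := by rw [hx, mul_assoc, card_annih]
  · have h1 : (Finset.univ.filter
        (fun y : ZMod n × ZMod n => f • y = 0 ∧ x.1 * y.2 = y.1 * x.2)) ⊆
        (Finset.univ.filter (fun t : ZMod n => f • t = 0)).biUnion (fun s =>
          (Finset.univ.filter (fun t : ZMod n => x.2 * t = x.1 * s)).image (fun t => (t, s))) := by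
      intro y hy
      simp only [Finset.mem_filter, Finset.mem_univ, true_and, Prod.ext_iff, Prod.smul_fst,
        Prod.smul_snd, Prod.fst_zero, Prod.snd_zero, Finset.mem_biUnion, Finset.mem_image] at hy ⊢
      exact ⟨y.2, hy.1.2, y.1, by rw [mul_comm]; exact hy.2.symm, rfl, rfl⟩
    have h2 : (Finset.univ.filter
        (fun y : ZMod n × ZMod n => f • y = 0 ∧ x.1 * y.2 = y.1 * x.2)).card ≤
        f * (Finset.univ.filter (fun t : ZMod n => x.2 * t = 0)).card := by
      refine (Finset.card_le_card h1).trans ?_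
      refine (Finset.card_biUnion_le_card_mul _ _ _ fun s _ =>
        Finset.card_image_le.trans (card_fibre_le x.2 (x.1 * s))).trans ?_
      exact Nat.mul_le_mul_right _ (card_torsion_le f hf)
    calc _ ≤ f * (Finset.univ.filter (fun t : ZMod n => x.2 * t = 0)).card * addOrderOf x :=
          Nat.mul_le_mul_right _ h2
      _ = f * n := by rw [hx, mul_assoc, card_annih]

/-- The kernel of a determinant map into a small subgroup is large. -/
lemma card_ker_ge (w : ZMod n × ZMod n) (f : ℕ) (hf : 0 < f) (hw : f • w = 0) :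
    n * n ≤ cc w * f := by
  set F : (ZMod n × ZMod n) →+ ZMod n :=
    (AddMonoidHom.mulLeft w.1).comp (AddMonoidHom.snd _ _) -
      (AddMonoidHom.mulLeft w.2).comp (AddMonoidHom.fst _ _) with hF
  have hFv : ∀ v, F v = w.1 * v.2 - w.2 * v.1 := fun v => rfl
  have h1 := AddSubgroup.card_mul_index F.ker
  rw [AddSubgroup.index_ker] at h1
  have h2 : Nat.card F.ker = cc w := by
    unfold cc
    rw [Nat.card_eq_fintype_card, Fintype.card_subtype]
    congr 1
    ext v
    simp only [Finset.mem_filter, Finset.mem_univ, true_and, AddMonoidHom.mem_ker, hFv]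
    rw [sub_eq_zero, mul_comm w.2]
  have h3 : Nat.card F.range ≤ f := by
    have h4 : Nat.card F.range = Nat.card (F.range : Set (ZMod n)) := rfl
    rw [h4]
    have h5 : (F.range : Set (ZMod n)) ⊆
        ((Finset.univ.filter (fun t : ZMod n => f • t = 0) : Finset (ZMod n)) : Set (ZMod n)) := by
      rintro _ ⟨v, rfl⟩
      simp only [Finset.coe_filter, Finset.mem_univ, true_and, Set.mem_setOf_eq, hFv]
      have e1 : f • w.1 = 0 := congrArg Prod.fst hw
      have e2 : f • w.2 = 0 := congrArg Prod.snd hw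
      rw [smul_sub, ← smul_mul_assoc, ← smul_mul_assoc, e1, e2]
      simp
    refine (Nat.card_mono (Finset.finite_toSet _) h5).trans ?_
    rw [Nat.card_coe_set_eq, Set.ncard_coe_finset]
    exact card_torsion_le f hf
  have h4 : Nat.card (ZMod n × ZMod n) = n * n := by
    rw [Nat.card_prod, Nat.card_zmod]
  rw [h2, h4] at h1
  rw [← h1]
  exact Nat.mul_le_mul_left _ h3

/-- Pairwise parallel quadruples. -/
def WW (n : ℕ) [NeZero n] : Finset (Fin 4 → ZMod n × ZMod n) :=
  Finset.univ.filter (fun w => ∀ i j : Fin 4, i ≠ j → (w i).1 * (w j).2 = (w j).1 * (w i).2)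

lemma par_symm {R : Type} [CommRing R] {a b : R × R} (h : par a b) : par b a := by
  simp only [par] at h ⊢
  exact h.symm

lemma adj_iff_par {R : Type} [CommRing R] (f : Fin 8 → R × R) :
    (∀ u v, K4p.Adj u v → par (f u) (f v)) ↔
      (∀ i j : Fin 4, i ≠ j → par (f (Fin.castAdd 4 i)) (f (Fin.castAdd 4 j))) ∧
      ∀ i : Fin 4, par (f (Fin.castAdd 4 i)) (f (Fin.natAdd 4 i)) := by
  constructor
  · intro h
    refine ⟨fun i j hij => h _ _ ?_, fun i => h _ _ ?_⟩
    · revert i j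
      decide
    · revert i
      decide
  · rintro ⟨h1, h2⟩ u v huv
    rw [K4p, SimpleGraph.fromRel_adj] at huv
    obtain ⟨hne, hr⟩ := huv
    have hA : ∀ u v : Fin 8, u ≠ v → u.val < 4 → v.val < 4 → par (f u) (f v) := by
      intro u v hne hu hv
      have := h1 ⟨u.val, hu⟩ ⟨v.val, hv⟩ (by
        intro he
        apply hne
        ext
        simpa using he)
      exact this
    have hB : ∀ u v : Fin 8, v.val = u.val + 4 → par (f u) (f v) := by
      intro u v huv
      have hu : u.val < 4 := by omega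
      have h3 := h2 ⟨u.val, hu⟩
      have e1 : (Fin.natAdd 4 ⟨u.val, hu⟩ : Fin 8) = v := by
        ext
        simp
        omega
      rw [e1] at h3
      exact h3
    rcases hr with (hr | hr) | (hr | hr)
    · exact hA u v hne hr.1 hr.2
    · exact hB u v hr
    · exact hA u v hne hr.2 hr.1
    · exact par_symm (hB v u hr)

/-- The count for our graph. -/
lemma NN_eq : NN K4p (ZMod n) = ∑ w ∈ WW n, ∏ i, cc (w i) := by
  classical
  have h1 : ∀ w : Fin 4 → ZMod n × ZMod n, ∏ i, cc (w i) =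
      (Fintype.piFinset (fun i => Finset.univ.filter
        (fun v : ZMod n × ZMod n => (w i).1 * v.2 = v.1 * (w i).2))).card := by
    intro w
    rw [Fintype.card_piFinset]
    rfl
  have h2 : ∑ w ∈ WW n, ∏ i, cc (w i) = ((WW n).sigma (fun w => Fintype.piFinset (fun i =>
      Finset.univ.filter (fun v : ZMod n × ZMod n => (w i).1 * v.2 = v.1 * (w i).2)))).card := by
    rw [Finset.card_sigma]
    exact Finset.sum_congr rfl fun w _ => h1 w
  rw [h2]
  unfold NN
  rw [Nat.card_eq_fintype_card, Fintype.card_subtype]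
  refine Finset.card_bij' (fun f _ => (⟨fun i => f (Fin.castAdd 4 i), fun i => f (Fin.natAdd 4 i)⟩ :
    (_ : Fin 4 → ZMod n × ZMod n) × (Fin 4 → ZMod n × ZMod n)))
    (fun q _ => (Fin.append q.1 q.2 : Fin (4 + 4) → ZMod n × ZMod n)) ?_ ?_ ?_ ?_
  · intro f hf
    rw [Finset.mem_filter, adj_iff_par] at hf
    rw [Finset.mem_sigma, Fintype.mem_piFinset]
    refine ⟨?_, fun i => ?_⟩
    · rw [WW, Finset.mem_filter]
      exact ⟨Finset.mem_univ _, fun i j hij => hf.2.1 i j hij⟩
    · rw [Finset.mem_filter]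
      exact ⟨Finset.mem_univ _, hf.2.2 i⟩
  · intro q hq
    rw [Finset.mem_sigma, Fintype.mem_piFinset] at hq
    rw [Finset.mem_filter, adj_iff_par]
    refine ⟨Finset.mem_univ _, fun i j hij => ?_, fun i => ?_⟩
    · have := hq.1
      rw [WW, Finset.mem_filter] at this
      have h3 := this.2 i j hij
      have e1 : ∀ i, (Fin.append q.1 q.2 : Fin (4 + 4) → ZMod n × ZMod n) (Fin.castAdd 4 i) =
        q.1 i := fun i => Fin.append_left _ _ i
      change par ((Fin.append q.1 q.2 : Fin (4 + 4) → ZMod n × ZMod n) (Fin.castAdd 4 i))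
        ((Fin.append q.1 q.2 : Fin (4 + 4) → ZMod n × ZMod n) (Fin.castAdd 4 j))
      rw [e1, e1]
      exact h3
    · have h3 := hq.2 i
      rw [Finset.mem_filter] at h3
      change par ((Fin.append q.1 q.2 : Fin (4 + 4) → ZMod n × ZMod n) (Fin.castAdd 4 i))
        ((Fin.append q.1 q.2 : Fin (4 + 4) → ZMod n × ZMod n) (Fin.natAdd 4 i))
      rw [Fin.append_left, Fin.append_right]
      exact h3.2
  · intro f hf
    exact (Fin.appendEquiv 4 4).right_inv f
  · intro q hq
    refine Sigma.ext ?_ (heq_of_eq ?_)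
    · funext i
      exact Fin.append_left _ _ i
    · funext i
      exact Fin.append_right _ _ i

lemma sum_biUnion_le' {ι α : Type*} [DecidableEq α] (s : Finset ι) (t : ι → Finset α)
    (f : α → ℕ) : ∑ a ∈ s.biUnion t, f a ≤ ∑ i ∈ s, ∑ a ∈ t i, f a := by
  classical
  induction s using Finset.induction_on with
  | empty => simp
  | insert i s hi ih =>
    rw [Finset.biUnion_insert, Finset.sum_insert hi]
    have := Finset.sum_union_inter (s₁ := t i) (s₂ := s.biUnion t) (f := f)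
    omega

/-- The vectors parallel to `x` whose order divides the order of `x`. -/
noncomputable def BB (x : ZMod n × ZMod n) : Finset (ZMod n × ZMod n) :=
  Finset.univ.filter (fun y => x.1 * y.2 = y.1 * x.2 ∧ addOrderOf y ∣ addOrderOf x)

/-- The sum of the numbers `cc y` over `BB x`. -/
noncomputable def SS (x : ZMod n × ZMod n) : ℕ := ∑ y ∈ BB x, cc y

lemma exists_max (hch : ∀ x y : ZMod n × ZMod n,
      addOrderOf x ∣ addOrderOf y ∨ addOrderOf y ∣ addOrderOf x)
    (w : Fin 4 → ZMod n × ZMod n) : ∃ i, ∀ j, addOrderOf (w j) ∣ addOrderOf (w i) := by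
  obtain ⟨i, hi⟩ := Finite.exists_max (fun i => addOrderOf (w i))
  refine ⟨i, fun j => ?_⟩
  rcases hch (w j) (w i) with h | h
  · exact h
  · have h1 := Nat.le_of_dvd (addOrderOf_pos (w j)) h
    have h2 : addOrderOf (w j) ≤ addOrderOf (w i) := hi j
    rw [le_antisymm h2 h1]

lemma sum_WW_le (hch : ∀ x y : ZMod n × ZMod n,
      addOrderOf x ∣ addOrderOf y ∨ addOrderOf y ∣ addOrderOf x) :
    ∑ w ∈ WW n, ∏ i, cc (w i) ≤ 4 * ∑ x : ZMod n × ZMod n, cc x * SS x ^ 3 := by
  classical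
  have h1 : WW n ⊆ (Finset.univ : Finset (Fin 4)).biUnion (fun i =>
      (Finset.univ : Finset (ZMod n × ZMod n)).biUnion (fun x =>
        Fintype.piFinset (fun j => if j = i then {x} else BB x))) := by
    intro w hw
    obtain ⟨i, hi⟩ := exists_max hch w
    rw [Finset.mem_biUnion]
    refine ⟨i, Finset.mem_univ _, ?_⟩
    rw [Finset.mem_biUnion]
    refine ⟨w i, Finset.mem_univ _, ?_⟩
    rw [Fintype.mem_piFinset]
    intro j
    by_cases hj : j = i
    · simp [hj]
    · rw [if_neg hj, BB, Finset.mem_filter]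
      rw [WW, Finset.mem_filter] at hw
      exact ⟨Finset.mem_univ _, hw.2 i j (Ne.symm hj), hi j⟩
  have h2 : ∀ (i : Fin 4) (x : ZMod n × ZMod n),
      ∑ w ∈ Fintype.piFinset (fun j => if j = i then {x} else BB x), ∏ i, cc (w i) =
        cc x * SS x ^ 3 := by
    intro i x
    have h3 := Finset.prod_univ_sum (fun j : Fin 4 => if j = i then {x} else BB x)
      (fun _ y => cc y)
    rw [← h3]
    rw [Fintype.prod_eq_mul_prod_compl i]
    rw [if_pos rfl, Finset.sum_singleton]
    congr 1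
    have h4 : ∀ j ∈ ({i} : Finset (Fin 4))ᶜ,
        ∑ y ∈ (if j = i then {x} else BB x), cc y = SS x := by
      intro j hj
      rw [Finset.mem_compl, Finset.mem_singleton] at hj
      rw [if_neg hj]
      rfl
    rw [Finset.prod_congr rfl h4, Finset.prod_const, Finset.card_compl, Finset.card_singleton]
    simp
  calc ∑ w ∈ WW n, ∏ i, cc (w i)
      ≤ ∑ w ∈ (Finset.univ : Finset (Fin 4)).biUnion (fun i =>
      (Finset.univ : Finset (ZMod n × ZMod n)).biUnion (fun x =>
        Fintype.piFinset (fun j => if j = i then {x} else BB x))), ∏ i, cc (w i) :=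
        Finset.sum_le_sum_of_subset h1
    _ ≤ ∑ i : Fin 4, ∑ w ∈ (Finset.univ : Finset (ZMod n × ZMod n)).biUnion (fun x =>
        Fintype.piFinset (fun j => if j = i then {x} else BB x)), ∏ i, cc (w i) :=
        sum_biUnion_le' _ _ _
    _ ≤ ∑ i : Fin 4, ∑ x : ZMod n × ZMod n,
        ∑ w ∈ Fintype.piFinset (fun j => if j = i then {x} else BB x), ∏ i, cc (w i) :=
        Finset.sum_le_sum fun i _ => sum_biUnion_le' _ _ _
    _ = ∑ i : Fin 4, ∑ x : ZMod n × ZMod n, cc x * SS x ^ 3 :=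
        Finset.sum_congr rfl fun i _ => Finset.sum_congr rfl fun x _ => h2 i x
    _ = 4 * ∑ x : ZMod n × ZMod n, cc x * SS x ^ 3 := by
        rw [Finset.sum_const]
        simp

end count

section primePower

variable {p k : ℕ} [hp : Fact p.Prime]

omit hp in
lemma nsmul_zero_pp (x : ZMod (p ^ k) × ZMod (p ^ k)) : (p ^ k) • x = 0 := by
  ext
  · rw [Prod.smul_fst, nsmul_eq_mul, ZMod.natCast_self, zero_mul, Prod.fst_zero]
  · rw [Prod.smul_snd, nsmul_eq_mul, ZMod.natCast_self, zero_mul, Prod.snd_zero]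

lemma exists_order (x : ZMod (p ^ k) × ZMod (p ^ k)) : ∃ a ≤ k, addOrderOf x = p ^ a :=
  (Nat.dvd_prime_pow hp.out).1 (addOrderOf_dvd_of_nsmul_eq_zero (nsmul_zero_pp x))

lemma chain_pp (x y : ZMod (p ^ k) × ZMod (p ^ k)) :
    addOrderOf x ∣ addOrderOf y ∨ addOrderOf y ∣ addOrderOf x := by
  obtain ⟨a, _, ha⟩ := exists_order x
  obtain ⟨b, _, hb⟩ := exists_order y
  rw [ha, hb]
  rcases le_total a b with h | h
  · exact Or.inl (pow_dvd_pow p h)
  · exact Or.inr (pow_dvd_pow p h)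

lemma order_coord (x : ZMod (p ^ k) × ZMod (p ^ k)) :
    addOrderOf x = addOrderOf x.1 ∨ addOrderOf x = addOrderOf x.2 := by
  have h1 : addOrderOf x = (addOrderOf x.1).lcm (addOrderOf x.2) := Prod.addOrderOf x
  have h0 : ∀ t : ZMod (p ^ k), ∃ a ≤ k, addOrderOf t = p ^ a := by
    intro t
    refine (Nat.dvd_prime_pow hp.out).1 (addOrderOf_dvd_of_nsmul_eq_zero ?_)
    rw [nsmul_eq_mul, ZMod.natCast_self, zero_mul]
  obtain ⟨a, _, ha⟩ := h0 x.1
  obtain ⟨b, _, hb⟩ := h0 x.2
  rw [h1, ha, hb]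
  rcases le_total a b with h | h
  · right
    exact Nat.lcm_eq_right (pow_dvd_pow p h)
  · left
    exact Nat.lcm_eq_left (pow_dvd_pow p h)

lemma cc_le (x : ZMod (p ^ k) × ZMod (p ^ k)) (a : ℕ) (hak : a ≤ k) (ha : addOrderOf x = p ^ a) :
    cc x ≤ p ^ (2 * k - a) := by
  have hpos : 0 < p := hp.out.pos
  have h1 := card_par_le x (p ^ k) (by positivity) (order_coord x)
  have h2 : (Finset.univ.filter (fun y : ZMod (p ^ k) × ZMod (p ^ k) =>
      (p ^ k) • y = 0 ∧ x.1 * y.2 = y.1 * x.2)).card = cc x := by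
    unfold cc
    congr 1
    ext y
    simp only [Finset.mem_filter, Finset.mem_univ, true_and, nsmul_zero_pp y]
  rw [h2, ha] at h1
  have h3 : cc x * p ^ a ≤ p ^ (2 * k - a) * p ^ a := by
    refine h1.trans (le_of_eq ?_)
    rw [← pow_add, ← pow_add]
    congr 1
    omega
  exact Nat.le_of_mul_le_mul_right h3 (by positivity)

lemma SS_le (x : ZMod (p ^ k) × ZMod (p ^ k)) (a : ℕ) (hak : a ≤ k) (ha : addOrderOf x = p ^ a) :
    SS x ≤ (k + 1) * p ^ (2 * k + min a (k - a)) := by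
  classical
  have hpos : 0 < p := hp.out.pos
  set B : ℕ → Finset (ZMod (p ^ k) × ZMod (p ^ k)) := fun i =>
    Finset.univ.filter (fun y => x.1 * y.2 = y.1 * x.2 ∧ addOrderOf y = p ^ i) with hB
  have h1 : BB x ⊆ (Finset.range (a + 1)).biUnion B := by
    intro y hy
    rw [BB, Finset.mem_filter] at hy
    obtain ⟨i, hi, hyi⟩ := exists_order y
    rw [Finset.mem_biUnion]
    refine ⟨i, ?_, ?_⟩
    · rw [Finset.mem_range, Nat.lt_succ_iff]
      have h2 := hy.2.2
      rw [hyi, ha] at h2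
      exact (Nat.pow_dvd_pow_iff_le_right hp.out.one_lt).1 h2
    · rw [hB, Finset.mem_filter]
      exact ⟨Finset.mem_univ _, hy.2.1, hyi⟩
  have h2 : ∀ i ∈ Finset.range (a + 1), ∑ y ∈ B i, cc y ≤ p ^ (2 * k + min a (k - a)) := by
    intro i hi
    rw [Finset.mem_range, Nat.lt_succ_iff] at hi
    have h3 : ∑ y ∈ B i, cc y ≤ (B i).card * p ^ (2 * k - i) := by
      rw [← smul_eq_mul]
      refine Finset.sum_le_card_nsmul _ _ _ fun y hy => ?_
      rw [hB, Finset.mem_filter] at hy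
      exact cc_le y i (hi.trans hak) hy.2.2
    have h4 : (B i).card ≤ p ^ (2 * i) := by
      have h5 : B i ⊆ Finset.univ.filter
          (fun y : ZMod (p ^ k) × ZMod (p ^ k) => (p ^ i) • y = 0) := by
        intro y hy
        rw [hB, Finset.mem_filter] at hy
        rw [Finset.mem_filter]
        refine ⟨Finset.mem_univ _, ?_⟩
        rw [← hy.2.2]
        exact addOrderOf_nsmul_eq_zero y
      refine (Finset.card_le_card h5).trans ((card_torsion2_le (p ^ i) (by positivity)).trans ?_)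
      rw [← pow_add, two_mul]
    have h6 : (B i).card ≤ p ^ (i + k - a) := by
      have h5 : B i ⊆ Finset.univ.filter
          (fun y : ZMod (p ^ k) × ZMod (p ^ k) => (p ^ i) • y = 0 ∧ x.1 * y.2 = y.1 * x.2) := by
        intro y hy
        rw [hB, Finset.mem_filter] at hy
        rw [Finset.mem_filter]
        refine ⟨Finset.mem_univ _, ?_, hy.2.1⟩
        rw [← hy.2.2]
        exact addOrderOf_nsmul_eq_zero y
      refine (Finset.card_le_card h5).trans ?_
      have h7 := card_par_le x (p ^ i) (by positivity) (order_coord x)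
      rw [ha] at h7
      refine Nat.le_of_mul_le_mul_right (h7.trans (le_of_eq ?_)) (pow_pos hpos a)
      rw [← pow_add, ← pow_add]
      congr 1
      omega
    refine h3.trans ?_
    rcases le_total a (k - a) with h | h
    · rw [min_eq_left h]
      calc (B i).card * p ^ (2 * k - i) ≤ p ^ (2 * i) * p ^ (2 * k - i) :=
            Nat.mul_le_mul_right _ h4
        _ = p ^ (2 * k + i) := by rw [← pow_add]; congr 1; omega
        _ ≤ p ^ (2 * k + a) := Nat.pow_le_pow_right hpos (by omega)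
    · rw [min_eq_right h]
      calc (B i).card * p ^ (2 * k - i) ≤ p ^ (i + k - a) * p ^ (2 * k - i) :=
            Nat.mul_le_mul_right _ h6
        _ = p ^ (2 * k + (k - a)) := by rw [← pow_add]; congr 1; omega
  calc SS x ≤ ∑ y ∈ (Finset.range (a + 1)).biUnion B, cc y := Finset.sum_le_sum_of_subset h1
    _ ≤ ∑ i ∈ Finset.range (a + 1), ∑ y ∈ B i, cc y := sum_biUnion_le' _ _ _
    _ ≤ ∑ i ∈ Finset.range (a + 1), p ^ (2 * k + min a (k - a)) := Finset.sum_le_sum h2
    _ = (a + 1) * p ^ (2 * k + min a (k - a)) := by simp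
    _ ≤ (k + 1) * p ^ (2 * k + min a (k - a)) := Nat.mul_le_mul_right _ (by omega)

lemma NN_le (E : ℕ) (hE : ∀ a ≤ k, a + 3 * min a (k - a) ≤ E) :
    NN K4p (ZMod (p ^ k)) ≤ 4 * (k + 1) ^ 4 * p ^ (8 * k + E) := by
  classical
  have hpos : 0 < p := hp.out.pos
  rw [NN_eq]
  refine (sum_WW_le chain_pp).trans ?_
  rw [mul_assoc]
  refine Nat.mul_le_mul_left _ ?_
  set C : ℕ → Finset (ZMod (p ^ k) × ZMod (p ^ k)) := fun a =>
    Finset.univ.filter (fun y => addOrderOf y = p ^ a) with hC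
  have h1 : (Finset.univ : Finset (ZMod (p ^ k) × ZMod (p ^ k))) ⊆
      (Finset.range (k + 1)).biUnion C := by
    intro y _
    obtain ⟨i, hi, hyi⟩ := exists_order y
    rw [Finset.mem_biUnion]
    refine ⟨i, ?_, ?_⟩
    · rw [Finset.mem_range]
      omega
    · rw [hC, Finset.mem_filter]
      exact ⟨Finset.mem_univ _, hyi⟩
  have h2 : ∀ a ∈ Finset.range (k + 1), ∑ x ∈ C a, cc x * SS x ^ 3 ≤
      (k + 1) ^ 3 * p ^ (8 * k + E) := by
    intro a hak
    rw [Finset.mem_range, Nat.lt_succ_iff] at hak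
    have h3 : ∑ x ∈ C a, cc x * SS x ^ 3 ≤
        (C a).card * (p ^ (2 * k - a) * ((k + 1) * p ^ (2 * k + min a (k - a))) ^ 3) := by
      rw [← smul_eq_mul]
      refine Finset.sum_le_card_nsmul _ _ _ fun y hy => ?_
      rw [hC, Finset.mem_filter] at hy
      exact Nat.mul_le_mul (cc_le y a hak hy.2)
        (Nat.pow_le_pow_left (SS_le y a hak hy.2) 3)
    have h4 : (C a).card ≤ p ^ (2 * a) := by
      have h5 : C a ⊆ Finset.univ.filter
          (fun y : ZMod (p ^ k) × ZMod (p ^ k) => (p ^ a) • y = 0) := by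
        intro y hy
        rw [hC, Finset.mem_filter] at hy
        rw [Finset.mem_filter]
        refine ⟨Finset.mem_univ _, ?_⟩
        rw [← hy.2]
        exact addOrderOf_nsmul_eq_zero y
      refine (Finset.card_le_card h5).trans ((card_torsion2_le (p ^ a) (by positivity)).trans ?_)
      rw [← pow_add, two_mul]
    refine h3.trans ((Nat.mul_le_mul_right _ h4).trans ?_)
    have h5 : p ^ (2 * a) * (p ^ (2 * k - a) * ((k + 1) * p ^ (2 * k + min a (k - a))) ^ 3) =
        (k + 1) ^ 3 * p ^ (8 * k + (a + 3 * min a (k - a))) := by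
      rw [mul_pow, ← pow_mul]
      have e : 8 * k + (a + 3 * min a (k - a)) = 2 * a + ((2 * k - a) +
        (2 * k + min a (k - a)) * 3) := by omega
      rw [e, pow_add, pow_add]
      ring
    rw [h5]
    exact Nat.mul_le_mul_left _ (Nat.pow_le_pow_right hpos (by have := hE a hak; omega))
  calc ∑ x : ZMod (p ^ k) × ZMod (p ^ k), cc x * SS x ^ 3
      ≤ ∑ x ∈ (Finset.range (k + 1)).biUnion C, cc x * SS x ^ 3 :=
        Finset.sum_le_sum_of_subset h1
    _ ≤ ∑ i ∈ Finset.range (k + 1), ∑ x ∈ C i, cc x * SS x ^ 3 := sum_biUnion_le' _ _ _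
    _ ≤ ∑ i ∈ Finset.range (k + 1), (k + 1) ^ 3 * p ^ (8 * k + E) := Finset.sum_le_sum h2
    _ = (k + 1) ^ 4 * p ^ (8 * k + E) := by
        rw [Finset.sum_const, Finset.card_range, smul_eq_mul]
        ring

lemma NN_le_general : NN K4p (ZMod (p ^ k)) ≤ 4 * (k + 1) ^ 4 * p ^ (10 * k) := by
  have := NN_le (p := p) (k := k) (2 * k) (fun a ha => by omega)
  rwa [show 8 * k + 2 * k = 10 * k by ring] at this

lemma NN_le_one : NN K4p (ZMod (p ^ 1)) ≤ 64 * p ^ 9 := by
  have := NN_le (p := p) (k := 1) 1 (fun a ha => by omega)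
  simpa using this

lemma torsion_form (a : ZMod (p ^ 2)) (ha : p • a = 0) : ∃ c : ℕ, a = ((p * c : ℕ) : ZMod (p ^ 2)) := by
  have h1 : ((p * a.val : ℕ) : ZMod (p ^ 2)) = 0 := by
    rw [nsmul_eq_mul] at ha
    push_cast
    rw [ZMod.natCast_zmod_val]
    exact ha
  rw [ZMod.natCast_eq_zero_iff] at h1
  have h2 : p ∣ a.val := by
    obtain ⟨c, hc⟩ := h1
    refine ⟨c, Nat.eq_of_mul_eq_mul_left hp.out.pos (hc.trans ?_)⟩
    ring
  obtain ⟨c, hc⟩ := h2
  refine ⟨c, ?_⟩
  rw [← hc, ZMod.natCast_zmod_val]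

lemma torsion_mul (a b : ZMod (p ^ 2)) (ha : p • a = 0) (hb : p • b = 0) : a * b = 0 := by
  obtain ⟨c, rfl⟩ := torsion_form a ha
  obtain ⟨d, rfl⟩ := torsion_form b hb
  rw [← Nat.cast_mul, ZMod.natCast_eq_zero_iff]
  exact ⟨c * d, by ring⟩

lemma card_torsion_ge :
    p ≤ (Finset.univ.filter (fun t : ZMod (p ^ 2) => p • t = 0)).card := by
  have h1 := card_annih ((p : ℕ) : ZMod (p ^ 2))
  have h2 : (Finset.univ.filter (fun t : ZMod (p ^ 2) => ((p : ℕ) : ZMod (p ^ 2)) * t = 0)) =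
      (Finset.univ.filter (fun t : ZMod (p ^ 2) => p • t = 0)) := by
    ext t
    simp only [Finset.mem_filter, Finset.mem_univ, true_and, nsmul_eq_mul]
  rw [h2] at h1
  have h3 : addOrderOf ((p : ℕ) : ZMod (p ^ 2)) ≤ p := by
    refine Nat.le_of_dvd hp.out.pos (addOrderOf_dvd_of_nsmul_eq_zero ?_)
    rw [nsmul_eq_mul, ← Nat.cast_mul, ZMod.natCast_eq_zero_iff, pow_two]
  by_contra hlt
  have hlt' := not_le.1 hlt
  have h4 : (Finset.univ.filter (fun t : ZMod (p ^ 2) => p • t = 0)).card *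
      addOrderOf ((p : ℕ) : ZMod (p ^ 2)) < p ^ 2 := by
    calc _ ≤ (Finset.univ.filter (fun t : ZMod (p ^ 2) => p • t = 0)).card * p :=
          Nat.mul_le_mul_left _ h3
      _ < p * p := Nat.mul_lt_mul_of_pos_right hlt' hp.out.pos
      _ = p ^ 2 := (pow_two p).symm
  omega

lemma NN_ge : p ^ 20 ≤ NN K4p (ZMod (p ^ 2)) := by
  classical
  have hpos : 0 < p := hp.out.pos
  rw [NN_eq]
  set T : Finset (ZMod (p ^ 2) × ZMod (p ^ 2)) :=
    (Finset.univ.filter (fun t : ZMod (p ^ 2) => p • t = 0)) ×ˢ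
      (Finset.univ.filter (fun t : ZMod (p ^ 2) => p • t = 0)) with hT
  have hTm : ∀ y ∈ T, p • y.1 = 0 ∧ p • y.2 = 0 := by
    intro y hy
    rw [hT, Finset.mem_product, Finset.mem_filter, Finset.mem_filter] at hy
    exact ⟨hy.1.2, hy.2.2⟩
  have hTc : p ^ 2 ≤ T.card := by
    rw [hT, Finset.card_product]
    exact (le_of_eq (pow_two p)).trans (Nat.mul_le_mul card_torsion_ge card_torsion_ge)
  have h1 : Fintype.piFinset (fun _ : Fin 4 => T) ⊆ WW (p ^ 2) := by
    intro w hw
    rw [Fintype.mem_piFinset] at hw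
    rw [WW, Finset.mem_filter]
    refine ⟨Finset.mem_univ _, fun i j _ => ?_⟩
    rw [torsion_mul _ _ (hTm _ (hw i)).1 (hTm _ (hw j)).2,
      torsion_mul _ _ (hTm _ (hw j)).1 (hTm _ (hw i)).2]
  have h2 : ∀ y ∈ T, p ^ 3 ≤ cc y := by
    intro y hy
    have h3 := card_ker_ge y p hpos (Prod.ext (hTm y hy).1 (hTm y hy).2)
    refine Nat.le_of_mul_le_mul_right (le_trans (le_of_eq ?_) h3) hpos
    ring
  calc p ^ 20 = (p ^ 2) ^ 4 * (p ^ 3) ^ 4 := by ring
    _ ≤ T.card ^ 4 * (p ^ 3) ^ 4 := Nat.mul_le_mul_right _ (Nat.pow_le_pow_left hTc 4)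
    _ = (Fintype.piFinset (fun _ : Fin 4 => T)).card • (p ^ 3) ^ 4 := by
        rw [Fintype.card_piFinset, Finset.prod_const, smul_eq_mul]
        simp
    _ ≤ ∑ w ∈ Fintype.piFinset (fun _ : Fin 4 => T), ∏ i, cc (w i) := by
        refine Finset.card_nsmul_le_sum _ _ _ fun w hw => ?_
        rw [Fintype.mem_piFinset] at hw
        calc (p ^ 3) ^ 4 = ∏ _i : Fin 4, p ^ 3 := by simp
          _ ≤ ∏ i, cc (w i) := Finset.prod_le_prod' fun i _ => h2 _ (hw i)
    _ ≤ ∑ w ∈ WW (p ^ 2), ∏ i, cc (w i) := Finset.sum_le_sum_of_subset h1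

end primePower

/-! ### The analytic part -/

lemma summable_of_mult (g T : ℕ → ℝ) (hg : ∀ n, 0 ≤ g n) (hg0 : g 0 = 0) (hg1 : g 1 = 1)
    (hmul : ∀ {m n}, Nat.Coprime m n → g (m * n) = g m * g n)
    (hs : ∀ {p : ℕ}, p.Prime → Summable (fun k : ℕ => g (p ^ k)))
    (hT : ∀ {p : ℕ}, p.Prime → ∑' k : ℕ, g (p ^ (k + 1)) ≤ T p)
    (hT0 : ∀ n, 0 ≤ T n) (hTs : Summable T) : Summable g := by
  refine summable_of_sum_range_le (c := Real.exp (∑' n, T n)) hg fun N => ?_
  have h1 := (EulerProduct.summable_and_hasSum_smoothNumbers_prod_primesBelow_tsum hg1 hmul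
    (fun {p} hp => by
      have := hs hp
      simpa [Real.norm_eq_abs, abs_of_nonneg (hg _)] using this) N).2
  have h2 := (hasSum_subtype_iff_indicator (f := g) (s := (N.smoothNumbers : Set ℕ))).1 h1
  have h3 : ∑ n ∈ Finset.range N, g n ≤ ∏ p ∈ N.primesBelow, ∑' n : ℕ, g (p ^ n) := by
    calc ∑ n ∈ Finset.range N, g n
        = ∑ n ∈ Finset.range N, (N.smoothNumbers : Set ℕ).indicator g n := by
          refine Finset.sum_congr rfl fun n hn => ?_
          rw [Finset.mem_range] at hn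
          rcases Nat.eq_zero_or_pos n with h0 | h0
          · rw [h0]
            by_cases h : 0 ∈ (N.smoothNumbers : Set ℕ)
            · rw [Set.indicator_of_mem h]
            · rw [Set.indicator_of_notMem h, hg0]
          · rw [Set.indicator_of_mem (Nat.mem_smoothNumbers_of_lt h0 hn)]
      _ ≤ _ := sum_le_hasSum _ (fun n _ => Set.indicator_nonneg (fun n _ => hg n) n) h2
  refine h3.trans ?_
  calc ∏ p ∈ N.primesBelow, ∑' n : ℕ, g (p ^ n)
      ≤ ∏ p ∈ N.primesBelow, Real.exp (T p) := by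
        refine Finset.prod_le_prod (fun p _ => tsum_nonneg fun n => hg _) fun p hp => ?_
        have hpp := Nat.prime_of_mem_primesBelow hp
        rw [(hs hpp).tsum_eq_zero_add, pow_zero, hg1]
        have h4 := Real.add_one_le_exp (T p)
        have h5 := hT hpp
        linarith
    _ = Real.exp (∑ p ∈ N.primesBelow, T p) := (Real.exp_sum _ _).symm
    _ ≤ Real.exp (∑' n, T n) :=
        Real.exp_le_exp.2 (hTs.sum_le_tsum _ fun n _ => hT0 n)

lemma coeffs_eq {n : ℕ} (hn : n ≠ 0) : coeffs K4p n = n ^ 2 * NN K4p (ZMod n) := by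
  have : NeZero n := ⟨hn⟩
  have h1 := card_conj K4p (ZMod n)
  rw [card_edges, Nat.card_zmod, Nat.card_fin] at h1
  have h2 : 0 < n ^ 8 := by positivity
  refine Nat.eq_of_mul_eq_mul_right h2 ?_
  have h3 : coeffs K4p n = Nat.card (ConjClasses (GG K4p (ZMod n))) := rfl
  rw [h3, h1]
  ring

lemma NN_one : NN K4p (ZMod 1) = 1 := by
  unfold NN
  rw [Nat.card_eq_one_iff_unique]
  constructor
  · infer_instance
  · exact ⟨⟨fun _ => 0, fun u v _ => Subsingleton.elim _ _⟩⟩

lemma NN_mul {m n : ℕ} (h : Nat.Coprime m n) :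
    NN K4p (ZMod (m * n)) = NN K4p (ZMod m) * NN K4p (ZMod n) := by
  rw [NN_congr K4p (ZMod.chineseRemainder h), NN_prod]

/-- The terms of the series at a real point. -/
noncomputable def gg (y : ℝ) (n : ℕ) : ℝ :=
  if n = 0 then 0 else (n : ℝ) ^ (2 - y) * NN K4p (ZMod n)

lemma gg_nonneg (y : ℝ) (n : ℕ) : 0 ≤ gg y n := by
  unfold gg
  split_ifs
  · exact le_refl _
  · positivity

lemma gg_norm (y : ℝ) (n : ℕ) :
    ‖LSeries.term (fun n => (coeffs K4p n : ℂ)) (y : ℂ) n‖ = gg y n := by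
  unfold gg
  rcases Nat.eq_zero_or_pos n with h0 | h0
  · simp [h0]
  · rw [LSeries.term_of_ne_zero h0.ne', if_neg h0.ne', norm_div, Complex.norm_natCast,
      Complex.norm_natCast_cpow_of_pos h0, Complex.ofReal_re, coeffs_eq h0.ne']
    have hn : (0 : ℝ) < n := by exact_mod_cast h0
    rw [Real.rpow_sub hn]
    push_cast
    rw [Real.rpow_two]
    ring

lemma gg_mul (y : ℝ) {m n : ℕ} (h : Nat.Coprime m n) : gg y (m * n) = gg y m * gg y n := by
  unfold gg
  by_cases hm : m = 0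
  · simp [hm]
  · by_cases hn : n = 0
    · simp [hn]
    · rw [if_neg hm, if_neg hn, if_neg (mul_ne_zero hm hn), NN_mul h]
      push_cast
      rw [Real.mul_rpow (Nat.cast_nonneg m) (Nat.cast_nonneg n)]
      ring

lemma gg_one (y : ℝ) : gg y 1 = 1 := by
  unfold gg
  rw [if_neg one_ne_zero, NN_one]
  simp

lemma gg_pp_le (y : ℝ) {p : ℕ} (hp : p.Prime) (j : ℕ) :
    gg y (p ^ j) ≤ 4 * ((j : ℝ) + 1) ^ 4 * ((p : ℝ) ^ (12 - y)) ^ j := by
  have : Fact p.Prime := ⟨hp⟩
  have hpos : (0 : ℝ) < p := by exact_mod_cast hp.pos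
  unfold gg
  rw [if_neg (pow_ne_zero _ hp.ne_zero)]
  have h1 : (NN K4p (ZMod (p ^ j)) : ℝ) ≤ 4 * ((j : ℝ) + 1) ^ 4 * (p : ℝ) ^ (10 * j) := by
    exact_mod_cast NN_le_general (p := p) (k := j)
  have h2 : ((p ^ j : ℕ) : ℝ) ^ (2 - y) = ((p : ℝ) ^ (2 - y)) ^ j := by
    push_cast
    rw [← Real.rpow_natCast, ← Real.rpow_mul hpos.le, mul_comm, Real.rpow_mul hpos.le,
      Real.rpow_natCast]
  rw [h2]
  have h3 : (p : ℝ) ^ (12 - y) = (p : ℝ) ^ (2 - y) * (p : ℝ) ^ (10 : ℕ) := by
    rw [← Real.rpow_natCast, ← Real.rpow_add hpos]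
    congr 1
    push_cast
    ring
  rw [h3]
  calc ((p : ℝ) ^ (2 - y)) ^ j * (NN K4p (ZMod (p ^ j)) : ℝ)
      ≤ ((p : ℝ) ^ (2 - y)) ^ j * (4 * ((j : ℝ) + 1) ^ 4 * (p : ℝ) ^ (10 * j)) :=
        mul_le_mul_of_nonneg_left h1 (by positivity)
    _ = 4 * ((j : ℝ) + 1) ^ 4 * ((p : ℝ) ^ (2 - y) * (p : ℝ) ^ (10 : ℕ)) ^ j := by
        rw [mul_pow, ← pow_mul]
        ring

lemma gg_p_le (y : ℝ) {p : ℕ} (hp : p.Prime) :
    gg y (p ^ 1) ≤ 64 * ((p : ℝ) ^ (12 - y) * (p : ℝ) ^ (-1 : ℝ)) := by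
  have : Fact p.Prime := ⟨hp⟩
  have hpos : (0 : ℝ) < p := by exact_mod_cast hp.pos
  unfold gg
  rw [if_neg (pow_ne_zero _ hp.ne_zero)]
  have h1 : (NN K4p (ZMod (p ^ 1)) : ℝ) ≤ 64 * (p : ℝ) ^ 9 := by
    exact_mod_cast NN_le_one (p := p)
  have h2 : ((p ^ 1 : ℕ) : ℝ) ^ (2 - y) = ((p : ℝ) ^ (2 - y)) := by
    rw [pow_one]
  have h3 : (p : ℝ) ^ (12 - y) * (p : ℝ) ^ (-1 : ℝ) = (p : ℝ) ^ (2 - y) * (p : ℝ) ^ (9 : ℕ) := by
    rw [← Real.rpow_natCast, ← Real.rpow_add hpos, ← Real.rpow_add hpos]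
    congr 1
    push_cast
    ring
  rw [h2, h3]
  calc (p : ℝ) ^ (2 - y) * (NN K4p (ZMod (p ^ 1)) : ℝ)
      ≤ (p : ℝ) ^ (2 - y) * (64 * (p : ℝ) ^ 9) := mul_le_mul_of_nonneg_left h1 (by positivity)
    _ = 64 * ((p : ℝ) ^ (2 - y) * (p : ℝ) ^ (9 : ℕ)) := by ring

/-- The majorant used for the sums over prime powers. -/
noncomputable def MM (s : ℝ) (k : ℕ) : ℝ := 128 * ((k : ℝ) + 2) ^ 4 * s ^ k

lemma MM_summable {s : ℝ} (hs0 : 0 < s) (hs1 : s < 1) : Summable (MM s) := by
  have h1 : Summable (fun n : ℕ => ((n : ℝ)) ^ 4 * s ^ n) :=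
    summable_pow_mul_geometric_of_norm_lt_one 4 (by rw [Real.norm_of_nonneg hs0.le]; exact hs1)
  have h2 := (summable_nat_add_iff 2).2 h1
  have h3 := h2.mul_left (128 / s ^ 2)
  refine h3.congr fun k => ?_
  unfold MM
  rw [pow_add]
  push_cast
  field_simp

lemma summable_upper (y : ℝ) (hy : 25 / 2 < y) (hy' : y ≤ 13) : Summable (gg y) := by
  obtain ⟨s, hs⟩ : ∃ s : ℝ, s = (2 : ℝ) ^ (-(1 / 2) : ℝ) := ⟨_, rfl⟩
  have hs0 : 0 < s := by rw [hs]; positivity
  have hs1 : s < 1 := by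
    rw [hs]
    exact Real.rpow_lt_one_of_one_lt_of_neg (by norm_num) (by norm_num)
  have hs2 : 1 ≤ 32 * s := by
    have h1 : (2 : ℝ) ^ (-1 : ℝ) ≤ s := by
      rw [hs]
      exact Real.rpow_le_rpow_of_exponent_le (by norm_num) (by norm_num)
    rw [Real.rpow_neg_one] at h1
    linarith
  have hr : ∀ {p : ℕ}, p.Prime → (p : ℝ) ^ (12 - y) ≤ s := by
    intro p hp
    have h2 : (2 : ℝ) ≤ p := by exact_mod_cast hp.two_le
    calc (p : ℝ) ^ (12 - y) ≤ (2 : ℝ) ^ (12 - y) :=
          Real.rpow_le_rpow_of_nonpos (by norm_num) h2 (by linarith)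
      _ ≤ (2 : ℝ) ^ (-(1 / 2) : ℝ) :=
          Real.rpow_le_rpow_of_exponent_le (by norm_num) (by linarith)
      _ = s := hs.symm
  have hr0 : ∀ {p : ℕ}, p.Prime → 0 < (p : ℝ) ^ (12 - y) := by
    intro p hp
    have : (0 : ℝ) < p := by exact_mod_cast hp.pos
    positivity
  have hM := MM_summable hs0 hs1
  have hbound : ∀ {p : ℕ}, p.Prime → ∀ k : ℕ,
      gg y (p ^ (k + 1)) ≤ ((p : ℝ) ^ (12 - y)) ^ 2 * MM s k := by
    intro p hp k
    have hpos : (0 : ℝ) < p := by exact_mod_cast hp.pos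
    have h1p : (1 : ℝ) ≤ p := by exact_mod_cast hp.one_lt.le
    rcases Nat.eq_zero_or_pos k with hk | hk
    · subst hk
      refine (gg_p_le y hp).trans ?_
      have h1 : (p : ℝ) ^ (-1 : ℝ) ≤ (p : ℝ) ^ (12 - y) :=
        Real.rpow_le_rpow_of_exponent_le h1p (by linarith)
      have h2 := hr0 hp
      unfold MM
      simp only [Nat.cast_zero, pow_zero, mul_one]
      have h3 : (p : ℝ) ^ (12 - y) * (p : ℝ) ^ (-1 : ℝ) ≤
          (p : ℝ) ^ (12 - y) * (p : ℝ) ^ (12 - y) := mul_le_mul_of_nonneg_left h1 h2.le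
      nlinarith [mul_pos h2 h2]
    · refine (gg_pp_le y hp (k + 1)).trans ?_
      obtain ⟨j, rfl⟩ : ∃ j, k = j + 1 := ⟨k - 1, by omega⟩
      have h2 := hr0 hp
      have h3 : ((p : ℝ) ^ (12 - y)) ^ (j + 1 + 1) ≤ ((p : ℝ) ^ (12 - y)) ^ 2 * s ^ j := by
        rw [show j + 1 + 1 = 2 + j by ring, pow_add]
        exact mul_le_mul_of_nonneg_left (pow_le_pow_left₀ h2.le (hr hp) j) (by positivity)
      have h4 : s ^ j ≤ 32 * s ^ (j + 1) := by
        rw [pow_succ]
        have : 0 < s ^ j := pow_pos hs0 j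
        nlinarith
      unfold MM
      push_cast
      calc 4 * ((j : ℝ) + 1 + 1 + 1) ^ 4 * ((p : ℝ) ^ (12 - y)) ^ (j + 1 + 1)
          ≤ 4 * ((j : ℝ) + 1 + 1 + 1) ^ 4 * (((p : ℝ) ^ (12 - y)) ^ 2 * (32 * s ^ (j + 1))) := by
            refine mul_le_mul_of_nonneg_left (h3.trans ?_) (by positivity)
            exact mul_le_mul_of_nonneg_left h4 (by positivity)
        _ = ((p : ℝ) ^ (12 - y)) ^ 2 * (128 * ((j : ℝ) + 1 + 2) ^ 4 * s ^ (j + 1)) := by ring
  have hsum : ∀ {p : ℕ}, p.Prime → Summable (fun k : ℕ => gg y (p ^ (k + 1))) := by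
    intro p hp
    exact Summable.of_nonneg_of_le (fun k => gg_nonneg _ _) (hbound hp) (hM.mul_left _)
  refine summable_of_mult (gg y) (fun n => (n : ℝ) ^ (24 - 2 * y) * ∑' k, MM s k)
    (gg_nonneg y) (by simp [gg]) (gg_one y) (fun {m n} h => gg_mul y h) ?_ ?_ ?_ ?_
  · intro p hp
    exact (summable_nat_add_iff 1).1 (hsum hp)
  · intro p hp
    have hpos : (0 : ℝ) < p := by exact_mod_cast hp.pos
    have h1 : ∑' k : ℕ, gg y (p ^ (k + 1)) ≤ ∑' k : ℕ, ((p : ℝ) ^ (12 - y)) ^ 2 * MM s k :=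
      (hsum hp).tsum_le_tsum (hbound hp) (hM.mul_left _)
    rw [tsum_mul_left] at h1
    refine h1.trans (le_of_eq ?_)
    congr 1
    rw [← Real.rpow_natCast, ← Real.rpow_mul hpos.le]
    congr 1
    push_cast
    ring
  · intro n
    have : 0 ≤ ∑' k, MM s k := tsum_nonneg fun k => by unfold MM; positivity
    positivity
  · exact (Real.summable_nat_rpow.2 (by linarith)).mul_right _

lemma not_summable_lower (y : ℝ) (hy : y < 25 / 2) : ¬ Summable (gg y) := by
  intro h
  have h1 : Summable (fun p : Nat.Primes => gg y ((p : ℕ) ^ 2)) := by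
    refine h.comp_injective (i := fun p : Nat.Primes => (p : ℕ) ^ 2) ?_
    intro p q hpq
    exact Subtype.ext (Nat.pow_left_injective (by norm_num) hpq)
  refine Nat.Primes.not_summable_one_div (h1.of_nonneg_of_le (fun p => by positivity) fun p => ?_)
  have hp := p.2
  have : Fact (p : ℕ).Prime := ⟨hp⟩
  have hpos : (0 : ℝ) < (p : ℕ) := by exact_mod_cast hp.pos
  have h1p : (1 : ℝ) ≤ (p : ℕ) := by exact_mod_cast hp.one_lt.le
  unfold gg
  rw [if_neg (pow_ne_zero _ hp.ne_zero)]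
  have h2 : (((p : ℕ) : ℝ)) ^ 20 ≤ (NN K4p (ZMod ((p : ℕ) ^ 2)) : ℝ) := by
    exact_mod_cast NN_ge (p := (p : ℕ))
  have h3 : ((((p : ℕ)) ^ 2 : ℕ) : ℝ) ^ (2 - y) = ((p : ℕ) : ℝ) ^ (4 - 2 * y) := by
    push_cast
    rw [← Real.rpow_natCast, ← Real.rpow_mul hpos.le]
    congr 1
    push_cast
    ring
  rw [h3]
  calc 1 / (((p : ℕ)) : ℝ) = (((p : ℕ)) : ℝ) ^ (-1 : ℝ) := by
        rw [Real.rpow_neg_one, one_div]
    _ ≤ (((p : ℕ)) : ℝ) ^ (24 - 2 * y) := Real.rpow_le_rpow_of_exponent_le h1p (by linarith)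
    _ = (((p : ℕ)) : ℝ) ^ (4 - 2 * y) * (((p : ℕ)) : ℝ) ^ 20 := by
        rw [← Real.rpow_natCast, ← Real.rpow_add hpos]
        congr 1
        push_cast
        ring
    _ ≤ (((p : ℕ)) : ℝ) ^ (4 - 2 * y) * (NN K4p (ZMod ((p : ℕ) ^ 2)) : ℝ) :=
        mul_le_mul_of_nonneg_left h2 (by positivity)

lemma term_eq (y : ℝ) {n : ℕ} (hn : 1 ≤ n) :
    (coeffs K4p n : ℂ) * (n : ℂ) ^ (-(y : ℂ)) = ((gg y n : ℝ) : ℂ) := by
  have h0 : n ≠ 0 := by omega
  have hpos : (0 : ℝ) < n := by exact_mod_cast hn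
  unfold gg
  rw [if_neg h0, coeffs_eq h0]
  rw [show (2 : ℝ) - y = 2 + -y by ring, Real.rpow_add hpos, Real.rpow_two]
  push_cast
  rw [Complex.ofReal_cpow hpos.le]
  push_cast
  ring

lemma icc_sum_eq {M : Type} [AddCommMonoid M] (f : ℕ → M) (h0 : f 0 = 0) (N : ℕ) :
    ∑ n ∈ Finset.Icc 1 N, f n = ∑ n ∈ Finset.range (N + 1), f n := by
  refine Finset.sum_subset ?_ ?_
  · intro n hn
    rw [Finset.mem_Icc] at hn
    rw [Finset.mem_range]
    omega
  · intro n hn hn'
    rw [Finset.mem_range] at hn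
    rw [Finset.mem_Icc] at hn'
    have : n = 0 := by omega
    rw [this, h0]

lemma converges_of_gt (s : ℂ) (hs : 25 / 2 < s.re) : ConvergesAt K4p s := by
  have h1 : Summable (gg (min s.re 13)) := summable_upper _ (by
    rw [lt_min_iff]
    exact ⟨hs, by norm_num⟩) (min_le_right _ _)
  have h2 : LSeriesSummable (fun n => (coeffs K4p n : ℂ)) ((min s.re 13 : ℝ) : ℂ) := by
    refine Summable.of_norm ?_
    refine h1.congr fun n => ?_
    rw [gg_norm]
  have h3 : LSeriesSummable (fun n => (coeffs K4p n : ℂ)) s := by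
    refine LSeriesSummable.of_re_le_re ?_ h2
    simp
  have h4 := h3.hasSum.tendsto_sum_nat
  refine ⟨_, (h4.comp (Filter.tendsto_add_atTop_nat 1)).congr fun N => ?_⟩
  simp only [Function.comp]
  rw [← icc_sum_eq _ (LSeries.term_zero _ _)]
  refine Finset.sum_congr rfl fun n hn => ?_
  rw [Finset.mem_Icc] at hn
  rw [LSeries.term_of_ne_zero (by omega), Complex.cpow_neg, div_eq_mul_inv]

lemma not_converges_of_lt (y : ℝ) (hy : y < 25 / 2) : ¬ ConvergesAt K4p (y : ℂ) := by
  rintro ⟨l, hl⟩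
  have hre := (Complex.continuous_re.tendsto l).comp hl
  have h1 : Filter.Tendsto (fun N : ℕ => ∑ n ∈ Finset.range (N + 1), gg y n) Filter.atTop
      (nhds l.re) := by
    refine hre.congr fun N => ?_
    simp only [Function.comp]
    rw [← icc_sum_eq _ (by simp [gg]), Complex.re_sum]
    refine Finset.sum_congr rfl fun n hn => ?_
    rw [Finset.mem_Icc] at hn
    rw [term_eq y hn.1, Complex.ofReal_re]
  have h2 : Filter.Tendsto (fun N : ℕ => ∑ n ∈ Finset.range N, gg y n) Filter.atTop (nhds l.re) :=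
    (Filter.tendsto_add_atTop_iff_nat 1).1 h1
  exact not_summable_lower y hy (((hasSum_iff_tendsto_nat_of_nonneg (gg_nonneg y) _).2 h2).summable)

/-- **Abscissae of graphical class counting zeta functions need not be integers.** For the complete
graph on four vertices with a pendant vertex attached to each vertex, `α(Γ) = 25 / 2`. -/
theorem result : alpha K4p = ((25 / 2 : ℝ) : EReal) ∧ ∀ z : ℤ, alpha K4p ≠ ((z : ℝ) : EReal) := by
  have hmain : alpha K4p = ((25 / 2 : ℝ) : EReal) := by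
    unfold alpha
    apply le_antisymm
    · refine sInf_le ⟨25 / 2, ?_, rfl⟩
      intro s hs
      exact converges_of_gt s hs
    · refine le_sInf ?_
      rintro _ ⟨σ, hσ, rfl⟩
      rw [EReal.coe_le_coe_iff]
      by_contra hlt
      have hlt' := not_le.1 hlt
      have h1 : σ < (σ + 25 / 2) / 2 := by linarith
      have h2 : (σ + 25 / 2) / 2 < 25 / 2 := by linarith
      exact not_converges_of_lt _ h2 (hσ (((σ + 25 / 2) / 2 : ℝ) : ℂ) (by
        rw [Complex.ofReal_re]
        exact h1))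
  refine ⟨hmain, fun z hz => ?_⟩
  rw [hmain, EReal.coe_eq_coe_iff] at hz
  have h3 : (25 : ℝ) = 2 * z := by linarith
  have h4 : (25 : ℤ) = 2 * z := by exact_mod_cast h3
  omega

end Pool.Agent.Results.MP_2f42a7_al.HalfIntegralAbscissa
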